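import Pool.Agent.Lib_helper18.FiveG2

/-!
# The inverse trees of the 5x+1 map grow like `(6/5)^k`, uniformly in the root

For every integer `a` prime to 5 the number `N k a` of integers `n` with `T5^[k] n = a` satisfies
`(1/k) log (N k a) → log (6/5)`; in particular `δ_5(a) = log (6/5)`. The bounds are uniform in `a`,
the lower one also for the number `Nstar k a` of the `n` that are prime to 5.
-/

set_option autoImplicit false

open Filter Topology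

namespace Pool.Agent.Results.MP_f1c1a6_nt.GrowthConstant

/-- The `5x+1` map on the integers. -/
def T5 (m : ℤ) : ℤ := if m % 2 = 0 then m / 2 else (5 * m + 1) / 2

/-- `N k a` is the number of integers `n` with `T5^[k] n = a`. -/
noncomputable def N (k : ℕ) (a : ℤ) : ℕ := Set.ncard {n : ℤ | T5^[k] n = a}

/-- `Nstar k a` is the number of integers `n` with `T5^[k] n = a` and `5 ∤ n`. -/
noncomputable def Nstar (k : ℕ) (a : ℤ) : ℕ := Set.ncard {n : ℤ | T5^[k] n = a ∧ ¬ (5 : ℤ) ∣ n}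

theorem result :
    -- the counted sets are finite
    (∀ (k : ℕ) (a : ℤ), {n : ℤ | T5^[k] n = a}.Finite) ∧
    -- (1) the growth constant of every `a` prime to 5 is `log (6/5)`
    (∀ a : ℤ, ¬ (5 : ℤ) ∣ a →
      limsup (fun k : ℕ => Real.log (N k a) / k) atTop = Real.log (6 / 5)) ∧
    -- (2) it is a limit
    (∀ a : ℤ, ¬ (5 : ℤ) ∣ a →
      Tendsto (fun k : ℕ => Real.log (N k a) / k) atTop (𝓝 (Real.log (6 / 5)))) ∧
    -- (3) bounds uniform in `a`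
    (∀ ε : ℝ, 0 < ε → ε ≤ 1 / 5 → ∃ K : ℝ, 1 ≤ K ∧ ∀ (k : ℕ) (a : ℤ),
      (¬ (5 : ℤ) ∣ a → (6 / 5 - ε) ^ k / K ≤ Nstar k a) ∧
      Nstar k a ≤ N k a ∧ (N k a : ℝ) ≤ K * (6 / 5 + ε) ^ k) := by
  have h3 : ∀ ε : ℝ, 0 < ε → ε ≤ 1 / 5 → ∃ K : ℝ, 1 ≤ K ∧ ∀ (k : ℕ) (a : ℤ),
      (¬ (5 : ℤ) ∣ a → (6 / 5 - ε) ^ k / K ≤ Nstar k a) ∧
      Nstar k a ≤ N k a ∧ (N k a : ℝ) ≤ K * (6 / 5 + ε) ^ k := by
    intro ε hε hε'
    obtain ⟨K, hK1, hK⟩ := Pool.Agent.Lib_helper18.FiveG.two_sided ε hε hε'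
    exact ⟨K, hK1, fun k a => ⟨(hK k a).1, Pool.Agent.Lib_helper18.FiveG.S_le_all k a, (hK k a).2⟩⟩
  have h2 : ∀ a : ℤ, ¬ (5 : ℤ) ∣ a →
      Tendsto (fun k : ℕ => Real.log (N k a) / k) atTop (𝓝 (Real.log (6 / 5))) := by
    intro a ha
    refine Pool.Agent.Lib_helper18.FiveG.tendsto_of_two_sided (fun k => (N k a : ℝ)) ?_
    intro ε hε hε'
    obtain ⟨K, hK1, hK⟩ := h3 ε hε hε'
    refine ⟨K, hK1, fun k => ⟨((hK k a).1 ha).trans ?_, (hK k a).2.2⟩⟩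
    exact_mod_cast (hK k a).2.1
  exact ⟨Pool.Agent.Lib_helper18.FiveG.all_finite, fun a ha => (h2 a ha).limsup_eq, h2, h3⟩

end Pool.Agent.Results.MP_f1c1a6_nt.GrowthConstant
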